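import Pool.Agent.H831.C.FCT0
import Pool.Agent.H831.C.FCT1
import Pool.Agent.H831.C.FCT2
import Pool.Agent.H831.C.FCT3
import Pool.Agent.H831.C.FCT4
import Pool.Agent.H831.C.FCT5
import Pool.Agent.H831.C.FCT6
import Pool.Agent.H831.C.FCT7
import Pool.Agent.H831.C.FCT8
import Pool.Agent.H831.C.FCT9
import Pool.Agent.H831.C.FCT10
import Pool.Agent.H831.C.FCT11
import Pool.Agent.H831.C.FCT12
import Pool.Agent.H831.C.FCT13
import Pool.Agent.H831.C.FCT14
import Pool.Agent.H831.C.FCT15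
import Pool.Agent.H831.C.FCT16
import Pool.Agent.H831.C.FCT17
import Pool.Agent.H831.C.FCT18
import Pool.Agent.H831.C.FCT19
import Pool.Agent.H831.C.FCT20
import Pool.Agent.H831.C.FCT21
import Pool.Agent.H831.C.FCT22
import Pool.Agent.H831.C.FCT23
import Pool.Agent.H831.C.FCT24
import Pool.Agent.H831.C.FCT25
import Pool.Agent.H831.C.FCT26
import Pool.Agent.H831.C.FCT27
import Pool.Agent.H831.C.FCT28
import Pool.Agent.H831.C.FCT29
import Pool.Agent.H831.C.FCT30
import Pool.Agent.H831.C.FCT31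
import Pool.Agent.H831.C.FCT32
import Pool.Agent.H831.C.FCT33
import Pool.Agent.H831.C.FCT34
import Pool.Agent.H831.C.FCT35
import Pool.Agent.H831.C.FCT36

/-!
# A triangulated sphere of dimension six: the sphere
-/

set_option autoImplicit false
set_option maxRecDepth 100000
set_option synthInstance.maxHeartbeats 400000
set_option synthInstance.maxSize 4096

noncomputable section

namespace Pool.Agent.H831.FC

open Pool.Agent.H944.FS
open Pool.Agent.H831.FX

theorem start0 : ∀ i < sz S_0, col S_0 i = if i < 2 * 3 + 1 + 1 then Nat.xor (2 ^ (2 * 3 + 1 + 1) - 1) (Nat.pow 2 i) else 0 := by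
  decide +kernel

theorem good0 : Gs 512 (2 * 3 + 1) S_0 O_0 := by
  have h := Gs.start (M := 512) (k := 2 * 3 + 1) (t := S_0) (by decide +kernel) (by decide +kernel) start0
  have e : (2 ^ (2 * 3 + 1 + 1) - 1 : ℕ) = O_0 := by decide +kernel
  rwa [e] at h

theorem good1 : Gs 512 (2 * 3 + 1) S_1 O_1 := good0.go t_1

theorem good2 : Gs 512 (2 * 3 + 1) S_2 O_2 := good1.go t_2

theorem good3 : Gs 512 (2 * 3 + 1) S_3 O_3 := good2.go t_3

theorem good4 : Gs 512 (2 * 3 + 1) S_4 O_4 := good3.go t_4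

theorem good5 : Gs 512 (2 * 3 + 1) S_5 O_5 := good4.go t_5

theorem good6 : Gs 512 (2 * 3 + 1) S_6 O_6 := good5.go t_6

theorem good7 : Gs 512 (2 * 3 + 1) S_7 O_7 := good6.go t_7

theorem good8 : Gs 512 (2 * 3 + 1) S_8 O_8 := good7.go t_8

theorem good9 : Gs 512 (2 * 3 + 1) S_9 O_9 := good8.go t_9

theorem good10 : Gs 512 (2 * 3 + 1) S_10 O_10 := good9.go t_10

theorem good11 : Gs 512 (2 * 3 + 1) S_11 O_11 := good10.go t_11

theorem good12 : Gs 512 (2 * 3 + 1) S_12 O_12 := good11.go t_12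

theorem good13 : Gs 512 (2 * 3 + 1) S_13 O_13 := good12.go t_13

theorem good14 : Gs 512 (2 * 3 + 1) S_14 O_14 := good13.go t_14

theorem good15 : Gs 512 (2 * 3 + 1) S_15 O_15 := good14.go t_15

theorem good16 : Gs 512 (2 * 3 + 1) S_16 O_16 := good15.go t_16

theorem good17 : Gs 512 (2 * 3 + 1) S_17 O_17 := good16.go t_17

theorem good18 : Gs 512 (2 * 3 + 1) S_18 O_18 := good17.go t_18

theorem good19 : Gs 512 (2 * 3 + 1) S_19 O_19 := good18.go t_19

theorem good20 : Gs 512 (2 * 3 + 1) S_20 O_20 := good19.go t_20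

theorem good21 : Gs 512 (2 * 3 + 1) S_21 O_21 := good20.go t_21

theorem good22 : Gs 512 (2 * 3 + 1) S_22 O_22 := good21.go t_22

theorem good23 : Gs 512 (2 * 3 + 1) S_23 O_23 := good22.go t_23

theorem good24 : Gs 512 (2 * 3 + 1) S_24 O_24 := good23.go t_24

theorem good25 : Gs 512 (2 * 3 + 1) S_25 O_25 := good24.go t_25

theorem good26 : Gs 512 (2 * 3 + 1) S_26 O_26 := good25.go t_26

theorem good27 : Gs 512 (2 * 3 + 1) S_27 O_27 := good26.go t_27

theorem good28 : Gs 512 (2 * 3 + 1) S_28 O_28 := good27.go t_28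

theorem good29 : Gs 512 (2 * 3 + 1) S_29 O_29 := good28.go t_29

theorem good30 : Gs 512 (2 * 3 + 1) S_30 O_30 := good29.go t_30

theorem good31 : Gs 512 (2 * 3 + 1) S_31 O_31 := good30.go t_31

theorem good32 : Gs 512 (2 * 3 + 1) S_32 O_32 := good31.go t_32

theorem good33 : Gs 512 (2 * 3 + 1) S_33 O_33 := good32.go t_33

theorem good34 : Gs 512 (2 * 3 + 1) S_34 O_34 := good33.go t_34

theorem good35 : Gs 512 (2 * 3 + 1) S_35 O_35 := good34.go t_35

theorem good36 : Gs 512 (2 * 3 + 1) S_36 O_36 := good35.go t_36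

theorem good37 : Gs 512 (2 * 3 + 1) S_37 O_37 := good36.go t_37

theorem good38 : Gs 512 (2 * 3 + 1) S_38 O_38 := good37.go t_38

theorem good39 : Gs 512 (2 * 3 + 1) S_39 O_39 := good38.go t_39

theorem good40 : Gs 512 (2 * 3 + 1) S_40 O_40 := good39.go t_40

theorem good41 : Gs 512 (2 * 3 + 1) S_41 O_41 := good40.go t_41

theorem good42 : Gs 512 (2 * 3 + 1) S_42 O_42 := good41.go t_42

theorem good43 : Gs 512 (2 * 3 + 1) S_43 O_43 := good42.go t_43

theorem good44 : Gs 512 (2 * 3 + 1) S_44 O_44 := good43.go t_44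

theorem good45 : Gs 512 (2 * 3 + 1) S_45 O_45 := good44.go t_45

theorem good46 : Gs 512 (2 * 3 + 1) S_46 O_46 := good45.go t_46

theorem good47 : Gs 512 (2 * 3 + 1) S_47 O_47 := good46.go t_47

theorem good48 : Gs 512 (2 * 3 + 1) S_48 O_48 := good47.go t_48

theorem good49 : Gs 512 (2 * 3 + 1) S_49 O_49 := good48.go t_49

theorem good50 : Gs 512 (2 * 3 + 1) S_50 O_50 := good49.go t_50

theorem good51 : Gs 512 (2 * 3 + 1) S_51 O_51 := good50.go t_51

theorem good52 : Gs 512 (2 * 3 + 1) S_52 O_52 := good51.go t_52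

theorem good53 : Gs 512 (2 * 3 + 1) S_53 O_53 := good52.go t_53

theorem good54 : Gs 512 (2 * 3 + 1) S_54 O_54 := good53.go t_54

theorem good55 : Gs 512 (2 * 3 + 1) S_55 O_55 := good54.go t_55

theorem good56 : Gs 512 (2 * 3 + 1) S_56 O_56 := good55.go t_56

theorem good57 : Gs 512 (2 * 3 + 1) S_57 O_57 := good56.go t_57

theorem good58 : Gs 512 (2 * 3 + 1) S_58 O_58 := good57.go t_58

theorem good59 : Gs 512 (2 * 3 + 1) S_59 O_59 := good58.go t_59

theorem good60 : Gs 512 (2 * 3 + 1) S_60 O_60 := good59.go t_60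

theorem good61 : Gs 512 (2 * 3 + 1) S_61 O_61 := good60.go t_61

theorem good62 : Gs 512 (2 * 3 + 1) S_62 O_62 := good61.go t_62

theorem good63 : Gs 512 (2 * 3 + 1) S_63 O_63 := good62.go t_63

theorem good64 : Gs 512 (2 * 3 + 1) S_64 O_64 := good63.go t_64

theorem good65 : Gs 512 (2 * 3 + 1) S_65 O_65 := good64.go t_65

theorem good66 : Gs 512 (2 * 3 + 1) S_66 O_66 := good65.go t_66

theorem good67 : Gs 512 (2 * 3 + 1) S_67 O_67 := good66.go t_67

theorem good68 : Gs 512 (2 * 3 + 1) S_68 O_68 := good67.go t_68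

theorem good69 : Gs 512 (2 * 3 + 1) S_69 O_69 := good68.go t_69

theorem good70 : Gs 512 (2 * 3 + 1) S_70 O_70 := good69.go t_70

theorem good71 : Gs 512 (2 * 3 + 1) S_71 O_71 := good70.go t_71

theorem good72 : Gs 512 (2 * 3 + 1) S_72 O_72 := good71.go t_72

theorem good73 : Gs 512 (2 * 3 + 1) S_73 O_73 := good72.go t_73

end Pool.Agent.H831.FC
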