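import Pool.Agent.H831.C.FC1

/-!
# A triangulated sphere of dimension six: the doubled cycle
-/

set_option autoImplicit false
set_option maxRecDepth 100000
set_option synthInstance.maxHeartbeats 400000
set_option synthInstance.maxSize 4096

noncomputable section

namespace Pool.Agent.H831.FC

open Pool.Agent.H944.FS
open Pool.Agent.H831.FX

/-- the rows of the adjacency matrix of the graph -/
def rows : List ℕ := [0x1d1cc4003e, 0x180440381d, 0x1fffffff63, 0x1fffffff63, 0x1fffffff63, 0x180440381d, 0x140843011c, 0x0, 0x1c5e54005c, 0x1d6cd8001c, 0x1d6cd8001c, 0x1d1cc4003e, 0x1e2d48003e, 0x1e2d48003e, 0x1e9d64001c, 0x1e9d64001c, 0x1cae68005c, 0x1cae68005c, 0xc0c00c91d, 0xc0c03361c, 0x180440071c, 0x180443c01c, 0x3c3b3ff7f, 0x1408400e1d, 0x140840f01c, 0x140843011c, 0xf03fff3f, 0x3338fff5d, 0xc0c00c91d, 0xc0c03361c, 0x180440071c, 0x180443c01c, 0x1408400e1d, 0x140840f01c, 0x3338fff5d, 0xf03fff3f, 0x3c3b3ff7f]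

/-- the first lift -/
def jt : List ℕ := [8, 9, 0, 12, 14, 16, 18, 19, 20, 1, 21, 23, 24, 25, 27, 26, 22, 2, 4]

/-- the second lift -/
def jf : List ℕ := [8, 10, 11, 13, 15, 17, 28, 29, 30, 5, 31, 32, 33, 6, 34, 35, 36, 3, 4]

/-- the colours -/
def kap : List ℕ := [2, 2, 2, 2, 2, 2, 1, 1, 1, 1, 1, 1, 1, 1, 0, 0, 0, 3, 3]

/-- the cycle modulo three -/
def zl : List (ℕ × ℤ) := [(147521, -1), (278593, 1), (163905, 1), (294977, -1), (164097, -1), (295169, 1), (196865, 1), (327937, -1), (155649, 1), (286721, -1), (204801, -1), (335873, 1), (147586, 1), (278658, -1), (163970, -1), (295042, 1), (164098, 1), (295170, -1), (196866, -1), (327938, 1), (149506, -1), (280578, 1), (198658, 1), (329730, -1), (147524, -1), (278596, 1), (163908, 1), (294980, -1), (164356, -1), (295428, 1), (197124, 1), (328196, -1), (149508, 1), (280580, -1), (198660, -1), (329732, 1), (147592, 1), (278664, -1), (163976, -1), (295048, 1), (164360, 1), (295432, -1), (197128, -1),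 (328200, 1), (151560, -1), (282632, 1), (200712, 1), (331784, -1), (147536, -1), (278608, 1), (163920, 1), (294992, -1), (164880, -1), (295952, 1), (197648, 1), (328720, -1), (151568, 1), (282640, -1), (200720, -1), (331792, 1), (147616, 1), (278688, -1), (164000, -1), (295072, 1), (164896, 1), (295968, -1), (197664, -1), (328736, 1), (155680, -1), (286752, 1), (204832, 1), (335904, -1)]

theorem c0 : Nat.ble (Nat.pow 2 37) 0x1fffffff7f = false := by decide +kernel

theorem c1 : ck2 37 (fun i => rows.getD i 0) (tT S_73 O_73) (3 + 1) 0 0x1fffffff7f = true := by decide +kernel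

theorem c2 : ∀ i < 512 + 1, Nat.testBit 0x1fffffff7f i = false → rows.getD i 0 = 0 := by decide +kernel

theorem c3 : ∀ v < 19, jt.getD v 0 < 512 + 1 ∧ jf.getD v 0 < 512 + 1 ∧ Nat.testBit 0x1fffffff7f (jt.getD v 0) = true ∧
      Nat.testBit 0x1fffffff7f (jf.getD v 0) = true ∧ kap.getD v 0 < 3 + 1 := by decide +kernel

theorem c4 : ∀ v < 19, ∀ w < 19, v ≠ w → jt.getD v 0 ≠ jt.getD w 0 ∧ jt.getD v 0 ≠ jf.getD w 0 ∧
      jf.getD v 0 ≠ jt.getD w 0 ∧ jf.getD v 0 ≠ jf.getD w 0 := by decide +kernel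

theorem c5 : ∀ v < 19, Nat.testBit 262145 v = true → jt.getD v 0 = jf.getD v 0 := by decide +kernel

theorem c6 : ∀ v < 19, Nat.testBit 262145 v = false → jt.getD v 0 ≠ jf.getD v 0 ∧
      (rows.getD (jt.getD v 0) 0).testBit (jf.getD v 0) = false := by decide +kernel

theorem c7 : ∀ v < 19, ∀ w < 19, Nat.testBit 262145 v = true → Nat.testBit 262145 w = true → v ≠ w →
      (rows.getD (jt.getD v 0) 0).testBit (jt.getD w 0) = true := by decide +kernel

theorem c8 : ∀ q ∈ zl, q.1 < 2 ^ 19 ∧ ((List.range 19).filter fun i => q.1.testBit i).length = 3 + 1 ∧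
      ∀ v < 19, ∀ w < 19, q.1.testBit v = true → q.1.testBit w = true → v ≠ w →
        (rows.getD (jt.getD v 0) 0).testBit (jt.getD w 0) = true ∧
        (rows.getD (jt.getD v 0) 0).testBit (jf.getD w 0) = true ∧
        (rows.getD (jf.getD v 0) 0).testBit (jt.getD w 0) = true ∧
        (rows.getD (jf.getD v 0) 0).testBit (jf.getD w 0) = true := by decide +kernel

theorem c9 : ∀ r ∈ zl.flatMap (fl 19), ((3 : ℕ) : ℤ) ∣ fs (zl.flatMap (fl 19)) r.1 := by decide +kernel

theorem c10 : ∃ q ∈ zl, ¬ ((3 : ℕ) : ℤ) ∣ fs zl q.1 := by decide +kernel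

theorem c11 : ∀ v < 19, ∀ w < 19, kap.getD v 0 = kap.getD w 0 → (rows.getD (jt.getD v 0) 0).testBit (jt.getD w 0) = false ∧
        (rows.getD (jt.getD v 0) 0).testBit (jf.getD w 0) = false ∧
        (rows.getD (jf.getD v 0) 0).testBit (jt.getD w 0) = false ∧
        (rows.getD (jf.getD v 0) 0).testBit (jf.getD w 0) = false := by decide +kernel

open Pool.Agent.N496.LT.Lt (Sph Dbl)

/-- There is a flag triangulation of the sphere of dimension `6` with a doubled `3`-cycle modulo `3`. -/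
theorem flagSphere : ∃ (N : ℕ) (H : SimpleGraph (Fin N)), Good (2 * 3 + 1) (cl H) ∧ ∃ (Z : Dbl (ZMod 3) H 3)
    (κ : Fin Z.n → Fin (3 + 1)), Z.U.card = 2 ∧ ∀ v w a b, H.Adj (Z.j v a) (Z.j w b) → κ v ≠ κ w := by
  haveI : Fact (Nat.Prime 3) := ⟨Nat.prime_three⟩
  obtain ⟨N, H, h1, Z, κ, h2, h3⟩ := cert (p := 3) 512 37 good73 rows 19 jt jf kap 262145 zl 0x1fffffff7f
    c0 c1 c2 c3 c4 c5 c6 c7 c8 c9 c10 c11
  refine ⟨N, H, h1, Z, κ, ?_, h3⟩
  rw [h2]
  decide +kernel

end Pool.Agent.H831.FC
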